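import Pool.Agent.Helper48.AA.Goals

set_option autoImplicit false

open Finset

namespace Pool.Agent.Helper24.AA

open Pool.Agent.Helper48.AA

theorem sum_inv_le (z : ℕ) : ∑ q ∈ Icc 1 z, 1 / (q : ℝ) ≤ 1 + Real.log z := by
  have h := harmonic_le_one_add_log z
  rw [harmonic_eq_sum_Icc] at h
  push_cast at h
  simpa only [one_div] using h

/-- the primes of `(Q, z]` -/
def Pz (Q z : ℕ) : Finset ℕ := (Ioc Q z).filter Nat.Prime

theorem sum_sq_le (Q z : ℕ) (hQ : 1 ≤ Q) (hz : Q ≤ z) :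
    ∑ q ∈ Pz Q z, 1 / (q : ℝ) * (1 / q) ≤ 1 / (Q : ℝ) := by
  have h := sum_Ioc_inv_sq_le_sub (α := ℝ) (k := Q) (n := z) (by omega) hz
  have h2 : ∑ q ∈ Pz Q z, 1 / (q : ℝ) * (1 / q) ≤ ∑ i ∈ Ioc Q z, ((i : ℝ) ^ 2)⁻¹ := by
    have h3 : ∀ q ∈ Pz Q z, 1 / (q : ℝ) * (1 / q) = ((q : ℝ) ^ 2)⁻¹ := by
      intro q _
      rw [one_div, ← mul_inv, sq]
    rw [Finset.sum_congr rfl h3]
    apply Finset.sum_le_sum_of_subset_of_nonneg (Finset.filter_subset _ _)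
    intro i _ _
    positivity
  have h4 : (0 : ℝ) ≤ (z : ℝ)⁻¹ := by positivity
  rw [one_div]
  linarith

theorem sum_one_le (Q z : ℕ) : ∑ q ∈ Pz Q z, 1 / (q : ℝ) ≤ 1 + Real.log z := by
  refine le_trans ?_ (sum_inv_le z)
  apply Finset.sum_le_sum_of_subset_of_nonneg
  · intro q hq
    simp only [Pz, Finset.mem_filter, Finset.mem_Ioc] at hq
    rw [Finset.mem_Icc]
    exact ⟨hq.2.one_lt.le, hq.1.2⟩
  · intro q _ _
    positivity

/-- indicator 1 -/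
noncomputable def I1 (j q k1 g : ℕ) : ℝ :=
  if (¬ q ∣ Nat.centralBinom k1 ∧ ¬ q ∣ Nat.centralBinom (k1 + j) ∧
    Nat.centralBinom (k1 + j) ≡ Nat.centralBinom k1 + g [MOD q]) then 1 else 0

/-- indicator 2 -/
noncomputable def I2 (j q k1 k2 : ℕ) : ℝ :=
  if (¬ q ∣ Nat.centralBinom (k2 + j) ∧
    Nat.centralBinom (k2 + j) ≡ Nat.centralBinom (k1 + j) [MOD q]) then 1 else 0

/-- indicator 3 -/
noncomputable def I3 (j q k1 k2 g : ℕ) : ℝ :=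
  if (¬ q ∣ Nat.centralBinom k2 ∧
    Nat.centralBinom k2 ≡ Nat.centralBinom (k1 + j) + (q * g - g) [MOD q]) then 1 else 0

theorem I1_nonneg (j q k1 g : ℕ) : 0 ≤ I1 j q k1 g := by
  unfold I1; split_ifs <;> norm_num

theorem I2_nonneg (j q k1 k2 : ℕ) : 0 ≤ I2 j q k1 k2 := by
  unfold I2; split_ifs <;> norm_num

theorem I3_nonneg (j q k1 k2 g : ℕ) : 0 ≤ I3 j q k1 k2 g := by
  unfold I3; split_ifs <;> norm_num

theorem sub_le {A B : Finset ℕ} {u v : ℕ → ℝ} (hAB : A ⊆ B) (h : ∀ q ∈ A, u q ≤ v q)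
    (hv : ∀ q ∈ B, 0 ≤ v q) : ∑ q ∈ A, u q ≤ ∑ q ∈ B, v q :=
  (Finset.sum_le_sum h).trans (Finset.sum_le_sum_of_subset_of_nonneg hAB (fun i hi _ => hv i hi))

theorem PK_sub (Q z k k' : ℕ) : PK Q z k ∩ PK Q z k' ⊆ Pz Q z := by
  intro q hq
  rw [Finset.mem_inter, mem_PK] at hq
  simp only [Pz, Finset.mem_filter, Finset.mem_Ioc]
  exact ⟨hq.1.1, hq.1.2.1⟩

theorem one_div_nonneg' (q : ℕ) : (0 : ℝ) ≤ 1 / (q : ℝ) := by positivity

theorem B_le (Q z j k1 k2 g : ℕ) :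
    ∑ i ∈ ({1, 2, 3} : Finset (Fin 4)), ∑ q ∈ (![PK Q z (k1 + j), PK Q z k1, PK Q z (k2 + j), PK Q z k2] :
        Fin 4 → Finset ℕ) 0 ∩ (![PK Q z (k1 + j), PK Q z k1, PK Q z (k2 + j), PK Q z k2] :
        Fin 4 → Finset ℕ) i,
        1 / (q : ℝ) * (1 / q + if (![Nat.centralBinom (k1 + j), g + Nat.centralBinom k1,
          Nat.centralBinom (k2 + j), g + Nat.centralBinom k2] : Fin 4 → ℕ) 0 ≡
          (![Nat.centralBinom (k1 + j), g + Nat.centralBinom k1,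
          Nat.centralBinom (k2 + j), g + Nat.centralBinom k2] : Fin 4 → ℕ) i [MOD q] then 1 else 0) ≤
      ∑ q ∈ Pz Q z, 1 / (q : ℝ) * (3 * (1 / q) + I1 j q k1 g + I2 j q k1 k2 + I3 j q k1 k2 g) := by
  have e0 : ∀ f : Fin 4 → ℝ, ∑ i ∈ ({1, 2, 3} : Finset (Fin 4)), f i = f 1 + f 2 + f 3 := by
    intro f
    rw [Finset.sum_insert (by decide), Finset.sum_insert (by decide), Finset.sum_singleton]
    ring
  rw [e0]
  have h1 : ∑ q ∈ PK Q z (k1 + j) ∩ PK Q z k1, 1 / (q : ℝ) * (1 / q +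
      if Nat.centralBinom (k1 + j) ≡ g + Nat.centralBinom k1 [MOD q] then 1 else 0) ≤
      ∑ q ∈ Pz Q z, 1 / (q : ℝ) * (1 / q + I1 j q k1 g) := by
    apply sub_le (PK_sub _ _ _ _)
    · intro q hq
      rw [Finset.mem_inter, mem_PK, mem_PK] at hq
      apply mul_le_mul_of_nonneg_left _ (one_div_nonneg' q)
      apply add_le_add (le_refl _)
      split_ifs with hc
      · have : I1 j q k1 g = 1 := by
          unfold I1
          rw [if_pos]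
          refine ⟨hq.2.2.2, hq.1.2.2, ?_⟩
          rw [add_comm (Nat.centralBinom k1) g]
          exact hc
        rw [this]
      · exact I1_nonneg _ _ _ _
    · intro q _
      have := I1_nonneg j q k1 g
      have h2 := one_div_nonneg' q
      exact mul_nonneg h2 (add_nonneg h2 this)
  have h2 : ∑ q ∈ PK Q z (k1 + j) ∩ PK Q z (k2 + j), 1 / (q : ℝ) * (1 / q +
      if Nat.centralBinom (k1 + j) ≡ Nat.centralBinom (k2 + j) [MOD q] then 1 else 0) ≤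
      ∑ q ∈ Pz Q z, 1 / (q : ℝ) * (1 / q + I2 j q k1 k2) := by
    apply sub_le (PK_sub _ _ _ _)
    · intro q hq
      rw [Finset.mem_inter, mem_PK, mem_PK] at hq
      apply mul_le_mul_of_nonneg_left _ (one_div_nonneg' q)
      apply add_le_add (le_refl _)
      split_ifs with hc
      · have : I2 j q k1 k2 = 1 := by
          unfold I2
          rw [if_pos]
          exact ⟨hq.2.2.2, hc.symm⟩
        rw [this]
      · exact I2_nonneg _ _ _ _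
    · intro q _
      have := I2_nonneg j q k1 k2
      have h2 := one_div_nonneg' q
      exact mul_nonneg h2 (add_nonneg h2 this)
  have h3 : ∑ q ∈ PK Q z (k1 + j) ∩ PK Q z k2, 1 / (q : ℝ) * (1 / q +
      if Nat.centralBinom (k1 + j) ≡ g + Nat.centralBinom k2 [MOD q] then 1 else 0) ≤
      ∑ q ∈ Pz Q z, 1 / (q : ℝ) * (1 / q + I3 j q k1 k2 g) := by
    apply sub_le (PK_sub _ _ _ _)
    · intro q hq
      rw [Finset.mem_inter, mem_PK, mem_PK] at hq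
      apply mul_le_mul_of_nonneg_left _ (one_div_nonneg' q)
      apply add_le_add (le_refl _)
      split_ifs with hc
      · have : I3 j q k1 k2 g = 1 := by
          unfold I3
          rw [if_pos]
          refine ⟨hq.2.2.2, ?_⟩
          have hqg : g ≤ q * g := Nat.le_mul_of_pos_left g hq.1.2.1.pos
          have h5 : Nat.centralBinom (k1 + j) + (q * g - g) ≡
              g + Nat.centralBinom k2 + (q * g - g) [MOD q] := Nat.ModEq.add_right _ hc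
          have h6 : g + Nat.centralBinom k2 + (q * g - g) = Nat.centralBinom k2 + q * g := by omega
          rw [h6] at h5
          have h7 : Nat.centralBinom k2 + q * g ≡ Nat.centralBinom k2 [MOD q] := by
            unfold Nat.ModEq
            rw [Nat.add_mul_mod_self_left]
          exact (h5.trans h7).symm
        rw [this]
      · exact I3_nonneg _ _ _ _ _
    · intro q _
      have := I3_nonneg j q k1 k2 g
      have h2 := one_div_nonneg' q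
      exact mul_nonneg h2 (add_nonneg h2 this)
  have h4 : ∑ q ∈ Pz Q z, 1 / (q : ℝ) * (3 * (1 / q) + I1 j q k1 g + I2 j q k1 k2 + I3 j q k1 k2 g) =
      ∑ q ∈ Pz Q z, 1 / (q : ℝ) * (1 / q + I1 j q k1 g) +
      ∑ q ∈ Pz Q z, 1 / (q : ℝ) * (1 / q + I2 j q k1 k2) +
      ∑ q ∈ Pz Q z, 1 / (q : ℝ) * (1 / q + I3 j q k1 k2 g) := by
    rw [← Finset.sum_add_distrib, ← Finset.sum_add_distrib]
    apply Finset.sum_congr rfl
    intro q _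
    ring
  rw [h4]
  exact add_le_add (add_le_add h1 h2) h3


theorem cnt {A : Finset ℕ} {p : ℕ → Prop} [DecidablePred p] {w K : ℕ} (hw : 1 ≤ w)
    (hA : A ⊆ range (K + 1)) (h : ((range (K + 1)).filter p).card * w ^ 6 ≤ 16 * (K + 1)) :
    ∑ k ∈ A, (if p k then (1 : ℝ) else 0) ≤ 16 * ((K : ℝ) + 1) / (w : ℝ) ^ 6 := by
  rw [Finset.sum_boole]
  have h1 : (A.filter p).card ≤ ((range (K + 1)).filter p).card :=
    Finset.card_le_card (Finset.filter_subset_filter p hA)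
  have h2 : (A.filter p).card * w ^ 6 ≤ 16 * (K + 1) := (Nat.mul_le_mul_right _ h1).trans h
  have h3 : (0 : ℝ) < (w : ℝ) ^ 6 := by positivity
  rw [le_div_iff₀ h3]
  exact_mod_cast h2

section counts

variable {w K j q : ℕ} (hw : 2 ≤ w) (hK : w ^ 20 ≤ K) (hq : q.Prime) (hwq : w ^ 20 < q)

include hw in
theorem w18 : (w ^ 6) ^ 3 ≤ w ^ 20 := by
  rw [← pow_mul]
  exact Nat.pow_le_pow_right (by omega) (by norm_num)

include hw hK hq hwq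

theorem cnt1 (hRGB : StmtRGB) (hj : 1 ≤ j) (hjw : j < w) {g : ℕ} (hg : 1 ≤ g) (hg2 : g ≤ w ^ 2)
    {A : Finset ℕ} (hA : A ⊆ range (K + 1)) :
    ∑ k ∈ A, I1 j q k g ≤ 16 * ((K : ℝ) + 1) / (w : ℝ) ^ 6 := by
  have h18 := w18 hw
  have h20 : w ^ 2 ≤ w ^ 20 := Nat.pow_le_pow_right (by omega) (by norm_num)
  have h6 : w ≤ w ^ 6 := Nat.le_self_pow (by norm_num) w
  have hqg : ¬ q ∣ g := by
    intro hd
    have := Nat.le_of_dvd (by omega) hd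
    omega
  have h := hRGB q (w ^ 6) (K + 1) j g hq (Nat.one_le_pow _ _ (by omega)) (by omega) (by omega) hj
    (by omega) hqg
  exact cnt (by omega) hA h

theorem cnt2 (hRGA : StmtRGA) {k1 : ℕ} {A : Finset ℕ} (hA : ∀ k ∈ A, k + j ∈ range (K + 1)) :
    ∑ k ∈ A, I2 j q k1 k ≤ 16 * ((K : ℝ) + 1) / (w : ℝ) ^ 6 := by
  have h18 := w18 hw
  have h := hRGA q (w ^ 6) (K + 1) (Nat.centralBinom (k1 + j)) hq (Nat.one_le_pow _ _ (by omega))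
    (by omega) (by omega)
  have h2 : A.map (addRightEmbedding j) ⊆ range (K + 1) := by
    intro x hx
    rw [Finset.mem_map] at hx
    obtain ⟨y, hy, rfl⟩ := hx
    exact hA y hy
  have h3 := cnt (by omega) h2 h
  rw [Finset.sum_map] at h3
  exact h3

theorem cnt3 (hRGA : StmtRGA) {k1 g : ℕ} {A : Finset ℕ} (hA : A ⊆ range (K + 1)) :
    ∑ k ∈ A, I3 j q k1 k g ≤ 16 * ((K : ℝ) + 1) / (w : ℝ) ^ 6 := by
  have h18 := w18 hw
  have h := hRGA q (w ^ 6) (K + 1) (Nat.centralBinom (k1 + j) + (q * g - g)) hq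
    (Nat.one_le_pow _ _ (by omega)) (by omega) (by omega)
  exact cnt (by omega) hA h

end counts

/-- the sum over the triples for one prime -/
theorem one_q (hRGA : StmtRGA) (hRGB : StmtRGB) {w K j q : ℕ} (hw : 2 ≤ w) (hK : w ^ 20 ≤ K)
    (hq : q.Prime) (hwq : w ^ 20 < q) (hj : 1 ≤ j) (hjw : j < w) {A : Finset ℕ}
    (hA : A ⊆ range (K + 1)) (hA2 : ∀ k ∈ A, k + j ∈ range (K + 1)) (hAc : A.card ≤ K) :
    ∑ k1 ∈ A, ∑ k2 ∈ A, ∑ g ∈ Icc 1 (w ^ 2),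
      (3 * (1 / (q : ℝ)) + I1 j q k1 g + I2 j q k1 k2 + I3 j q k1 k2 g) ≤
      3 * (K : ℝ) ^ 2 * (w : ℝ) ^ 2 * (1 / (q : ℝ)) +
        3 * K * (w : ℝ) ^ 2 * (16 * ((K : ℝ) + 1) / (w : ℝ) ^ 6) := by
  set T : ℝ := 16 * ((K : ℝ) + 1) / (w : ℝ) ^ 6 with hT
  have hT0 : 0 ≤ T := by positivity
  have hAc' : (A.card : ℝ) ≤ K := by exact_mod_cast hAc
  simp only [Finset.sum_add_distrib, Finset.sum_const, nsmul_eq_mul, Nat.card_Icc,
    Nat.add_sub_cancel]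
  push_cast
  have e1 : ∑ k1 ∈ A, (A.card : ℝ) * ∑ g ∈ Icc 1 (w ^ 2), I1 j q k1 g ≤ K * (w : ℝ) ^ 2 * T := by
    rw [← Finset.mul_sum, Finset.sum_comm]
    have h1 : ∑ g ∈ Icc 1 (w ^ 2), ∑ k ∈ A, I1 j q k g ≤ ∑ g ∈ Icc 1 (w ^ 2), T := by
      apply Finset.sum_le_sum
      intro g hg
      rw [Finset.mem_Icc] at hg
      exact cnt1 hw hK hq hwq hRGB hj hjw hg.1 hg.2 hA
    rw [Finset.sum_const, nsmul_eq_mul, Nat.card_Icc, Nat.add_sub_cancel] at h1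
    push_cast at h1
    calc (A.card : ℝ) * ∑ g ∈ Icc 1 (w ^ 2), ∑ k ∈ A, I1 j q k g ≤ (A.card : ℝ) * ((w : ℝ) ^ 2 * T) :=
          mul_le_mul_of_nonneg_left h1 (by positivity)
      _ ≤ K * ((w : ℝ) ^ 2 * T) := mul_le_mul_of_nonneg_right hAc' (by positivity)
      _ = K * (w : ℝ) ^ 2 * T := by ring
  have e2 : ∑ k1 ∈ A, ∑ k2 ∈ A, (w : ℝ) ^ 2 * I2 j q k1 k2 ≤ K * (w : ℝ) ^ 2 * T := by
    have h1 : ∀ k1 ∈ A, ∑ k2 ∈ A, (w : ℝ) ^ 2 * I2 j q k1 k2 ≤ (w : ℝ) ^ 2 * T := by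
      intro k1 _
      rw [← Finset.mul_sum]
      exact mul_le_mul_of_nonneg_left (cnt2 hw hK hq hwq hRGA hA2) (by positivity)
    have h2 := Finset.sum_le_sum h1
    rw [Finset.sum_const, nsmul_eq_mul] at h2
    calc _ ≤ (A.card : ℝ) * ((w : ℝ) ^ 2 * T) := h2
      _ ≤ K * ((w : ℝ) ^ 2 * T) := mul_le_mul_of_nonneg_right hAc' (by positivity)
      _ = K * (w : ℝ) ^ 2 * T := by ring
  have e3 : ∑ k1 ∈ A, ∑ k2 ∈ A, ∑ g ∈ Icc 1 (w ^ 2), I3 j q k1 k2 g ≤ K * (w : ℝ) ^ 2 * T := by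
    have h1 : ∀ k1 ∈ A, ∑ k2 ∈ A, ∑ g ∈ Icc 1 (w ^ 2), I3 j q k1 k2 g ≤ (w : ℝ) ^ 2 * T := by
      intro k1 _
      rw [Finset.sum_comm]
      have h3 : ∑ g ∈ Icc 1 (w ^ 2), ∑ k ∈ A, I3 j q k1 k g ≤ ∑ g ∈ Icc 1 (w ^ 2), T := by
        apply Finset.sum_le_sum
        intro g hg
        exact cnt3 hw hK hq hwq hRGA hA
      rw [Finset.sum_const, nsmul_eq_mul, Nat.card_Icc, Nat.add_sub_cancel] at h3
      push_cast at h3
      exact h3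
    have h2 := Finset.sum_le_sum h1
    rw [Finset.sum_const, nsmul_eq_mul] at h2
    calc _ ≤ (A.card : ℝ) * ((w : ℝ) ^ 2 * T) := h2
      _ ≤ K * ((w : ℝ) ^ 2 * T) := mul_le_mul_of_nonneg_right hAc' (by positivity)
      _ = K * (w : ℝ) ^ 2 * T := by ring
  have e0 : (A.card : ℝ) * ((A.card : ℝ) * ((w : ℝ) ^ 2 * (3 * (1 / (q : ℝ))))) ≤
      3 * (K : ℝ) ^ 2 * (w : ℝ) ^ 2 * (1 / (q : ℝ)) := by
    have h1 : (A.card : ℝ) * (A.card : ℝ) ≤ K * K := mul_le_mul hAc' hAc' (by positivity) (by positivity)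
    calc _ = ((A.card : ℝ) * (A.card : ℝ)) * ((w : ℝ) ^ 2 * (3 * (1 / (q : ℝ)))) := by ring
      _ ≤ (K * K) * ((w : ℝ) ^ 2 * (3 * (1 / (q : ℝ)))) := mul_le_mul_of_nonneg_right h1 (by positivity)
      _ = _ := by ring
  linarith


theorem Fx_shift (D : ℕ) (la : ℕ → ℝ) (a g x : ℕ) : Fx D la a (x + g) = Fx D la (g + a) x := by
  unfold Fx
  simp only [Nat.add_assoc]

/-- the square, expanded -/
theorem expand (A : Finset ℕ) (u v : ℕ → ℕ → ℝ) (v' : ℕ → ℕ → ℕ → ℝ) (X G : ℕ)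
    (hv : ∀ k x g, v k (x + g) = v' k g x) :
    ∑ x ∈ Icc 1 X, ∑ g ∈ Icc 1 G, (∑ k ∈ A, u k x * v k (x + g)) ^ 2 =
      ∑ k1 ∈ A, ∑ k2 ∈ A, ∑ g ∈ Icc 1 G, ∑ x ∈ Icc 1 X, u k1 x * v' k1 g x * u k2 x * v' k2 g x := by
  have h1 : ∀ x g, (∑ k ∈ A, u k x * v k (x + g)) ^ 2 =
      ∑ k1 ∈ A, ∑ k2 ∈ A, u k1 x * v' k1 g x * u k2 x * v' k2 g x := by
    intro x g
    rw [sq, Finset.sum_mul_sum]
    apply Finset.sum_congr rfl
    intro k1 _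
    apply Finset.sum_congr rfl
    intro k2 _
    rw [hv, hv]
    ring
  simp only [h1]
  calc ∑ x ∈ Icc 1 X, ∑ g ∈ Icc 1 G, ∑ k1 ∈ A, ∑ k2 ∈ A, u k1 x * v' k1 g x * u k2 x * v' k2 g x
      = ∑ x ∈ Icc 1 X, ∑ k1 ∈ A, ∑ g ∈ Icc 1 G, ∑ k2 ∈ A, u k1 x * v' k1 g x * u k2 x * v' k2 g x :=
        Finset.sum_congr rfl fun x _ => Finset.sum_comm
    _ = ∑ x ∈ Icc 1 X, ∑ k1 ∈ A, ∑ k2 ∈ A, ∑ g ∈ Icc 1 G, u k1 x * v' k1 g x * u k2 x * v' k2 g x :=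
        Finset.sum_congr rfl fun x _ => Finset.sum_congr rfl fun k1 _ => Finset.sum_comm
    _ = ∑ k1 ∈ A, ∑ x ∈ Icc 1 X, ∑ k2 ∈ A, ∑ g ∈ Icc 1 G, u k1 x * v' k1 g x * u k2 x * v' k2 g x :=
        Finset.sum_comm
    _ = ∑ k1 ∈ A, ∑ k2 ∈ A, ∑ x ∈ Icc 1 X, ∑ g ∈ Icc 1 G, u k1 x * v' k1 g x * u k2 x * v' k2 g x :=
        Finset.sum_congr rfl fun k1 _ => Finset.sum_comm
    _ = _ := Finset.sum_congr rfl fun k1 _ => Finset.sum_congr rfl fun k2 _ => Finset.sum_comm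

/-- the sum over the primes moved outside -/
theorem swap (A B Q : Finset ℕ) (c : ℕ → ℝ) (f : ℕ → ℕ → ℕ → ℕ → ℝ) :
    ∑ k1 ∈ A, ∑ k2 ∈ A, ∑ g ∈ B, ∑ q ∈ Q, c q * f q k1 k2 g =
      ∑ q ∈ Q, c q * ∑ k1 ∈ A, ∑ k2 ∈ A, ∑ g ∈ B, f q k1 k2 g := by
  simp only [Finset.mul_sum]
  calc ∑ k1 ∈ A, ∑ k2 ∈ A, ∑ g ∈ B, ∑ q ∈ Q, c q * f q k1 k2 g
      = ∑ k1 ∈ A, ∑ k2 ∈ A, ∑ q ∈ Q, ∑ g ∈ B, c q * f q k1 k2 g :=
        Finset.sum_congr rfl fun k1 _ => Finset.sum_congr rfl fun k2 _ => Finset.sum_comm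
    _ = ∑ k1 ∈ A, ∑ q ∈ Q, ∑ k2 ∈ A, ∑ g ∈ B, c q * f q k1 k2 g :=
        Finset.sum_congr rfl fun k1 _ => Finset.sum_comm
    _ = _ := Finset.sum_comm

theorem gCC : StmtML → StmtRGA → StmtRGB → StmtCC := by
  rintro ⟨C, hC, hML⟩ hRGA hRGB
  refine ⟨196 * C, by positivity, ?_⟩
  intro w z K D X j KK la hw hwz hwK hDX hKK hWt hj hjw
  have hcc : ∀ x g, cc KK (fun k x => Fx D (la k) (Nat.centralBinom k) x) j x (x + g) =
      ∑ k ∈ KK.filter (fun k => k + j ∈ KK), Fx D (la (k + j)) (Nat.centralBinom (k + j)) x *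
        Fx D (la k) (Nat.centralBinom k) (x + g) := fun x g => rfl
  simp only [hcc]
  set A := KK.filter (fun k => k + j ∈ KK) with hA
  have hAK : ∀ k ∈ A, k ∈ KK ∧ k + j ∈ KK := by
    intro k hk
    rw [hA, Finset.mem_filter] at hk
    exact hk
  have hKr : ∀ k ∈ KK, k ∈ range (K + 1) := by
    intro k hk
    have := hKK hk
    rw [Finset.mem_Icc] at this
    rw [Finset.mem_range]
    omega
  have hA1 : A ⊆ range (K + 1) := fun k hk => hKr k (hAK k hk).1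
  have hA2 : ∀ k ∈ A, k + j ∈ range (K + 1) := fun k hk => hKr _ (hAK k hk).2
  have hAc : A.card ≤ K := by
    have h1 := Finset.card_le_card (Finset.filter_subset (fun k => k + j ∈ KK) KK)
    have h2 := Finset.card_le_card hKK
    rw [Nat.card_Icc, Nat.add_sub_cancel] at h2
    exact h1.trans h2
  have h220 : 2 ^ 20 ≤ w ^ 20 := Nat.pow_le_pow_left hw 20
  have hz3 : 3 ≤ z := by
    have : 3 ≤ 2 ^ 20 := by norm_num
    omega
  have hK1 : 1 ≤ K := by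
    have : 1 ≤ 2 ^ 20 := by norm_num
    omega
  have hz3' : (3 : ℝ) ≤ z := by exact_mod_cast hz3
  have hL1 : 1 ≤ Real.log z := by
    rw [Real.le_log_iff_exp_le (by linarith)]
    have := Real.exp_one_lt_d9
    linarith
  set L := Real.log z with hL
  have hw0 : (0 : ℝ) < (w : ℝ) := by exact_mod_cast (by omega : 0 < w)
  have hw1 : (1 : ℝ) ≤ (w : ℝ) := by exact_mod_cast (by omega : 1 ≤ w)
  have hw6 : (0 : ℝ) < (w : ℝ) ^ 6 := by positivity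
  have hDX4 : D ^ 4 ≤ X := by
    have h1 : 1 ≤ w ^ 6 := Nat.one_le_pow _ _ (by omega)
    calc D ^ 4 = D ^ 4 * 1 := (Nat.mul_one _).symm
      _ ≤ D ^ 4 * w ^ 6 := Nat.mul_le_mul_left _ h1
      _ ≤ X := hDX
  -- expansion
  rw [expand A (fun k x => Fx D (la (k + j)) (Nat.centralBinom (k + j)) x)
    (fun k x => Fx D (la k) (Nat.centralBinom k) x)
    (fun k g x => Fx D (la k) (g + Nat.centralBinom k) x) X (w ^ 2)
    (fun k x g => Fx_shift D (la k) (Nat.centralBinom k) g x)]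
  set f : ℕ → ℕ → ℕ → ℕ → ℝ := fun q k1 k2 g =>
    3 * (1 / (q : ℝ)) + I1 j q k1 g + I2 j q k1 k2 + I3 j q k1 k2 g with hf
  have hterm : ∀ k1 ∈ A, ∀ k2 ∈ A, ∀ g ∈ Icc 1 (w ^ 2),
      ∑ x ∈ Icc 1 X, Fx D (la (k1 + j)) (Nat.centralBinom (k1 + j)) x *
        Fx D (la k1) (g + Nat.centralBinom k1) x *
        Fx D (la (k2 + j)) (Nat.centralBinom (k2 + j)) x *
        Fx D (la k2) (g + Nat.centralBinom k2) x ≤
      C * X * L ^ 16 * ∑ q ∈ Pz (w ^ 20) z, 1 / (q : ℝ) * f q k1 k2 g + C * (D : ℝ) ^ 4 := by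
    intro k1 hk1 k2 hk2 g _
    have h := hML z D X ![PK (w ^ 20) z (k1 + j), PK (w ^ 20) z k1, PK (w ^ 20) z (k2 + j),
      PK (w ^ 20) z k2] ![la (k1 + j), la k1, la (k2 + j), la k2]
      ![Nat.centralBinom (k1 + j), g + Nat.centralBinom k1,
          Nat.centralBinom (k2 + j), g + Nat.centralBinom k2] hz3 hDX4
      (by
        intro i p hp
        fin_cases i
        · exact ⟨(mem_PK.mp hp).2.1, (mem_PK.mp hp).1.2⟩
        · exact ⟨(mem_PK.mp hp).2.1, (mem_PK.mp hp).1.2⟩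
        · exact ⟨(mem_PK.mp hp).2.1, (mem_PK.mp hp).1.2⟩
        · exact ⟨(mem_PK.mp hp).2.1, (mem_PK.mp hp).1.2⟩)
      (by
        intro i
        fin_cases i
        · exact hWt _ (hAK k1 hk1).2
        · exact hWt _ (hAK k1 hk1).1
        · exact hWt _ (hAK k2 hk2).2
        · exact hWt _ (hAK k2 hk2).1)
    have h2 := (le_abs_self _).trans h
    have h3 := B_le (w ^ 20) z j k1 k2 g
    have h4 : 0 ≤ C * X * L ^ 16 := by positivity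
    have h5 := mul_le_mul_of_nonneg_left h3 h4
    have h6 := h2.trans (add_le_add h5 (le_refl (C * (D : ℝ) ^ 4)))
    simp only [Fin.prod_univ_four] at h6
    exact h6
  have hsum : ∑ k1 ∈ A, ∑ k2 ∈ A, ∑ g ∈ Icc 1 (w ^ 2), ∑ x ∈ Icc 1 X,
      Fx D (la (k1 + j)) (Nat.centralBinom (k1 + j)) x *
        Fx D (la k1) (g + Nat.centralBinom k1) x *
        Fx D (la (k2 + j)) (Nat.centralBinom (k2 + j)) x *
        Fx D (la k2) (g + Nat.centralBinom k2) x ≤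
      ∑ k1 ∈ A, ∑ k2 ∈ A, ∑ g ∈ Icc 1 (w ^ 2),
        (C * X * L ^ 16 * ∑ q ∈ Pz (w ^ 20) z, 1 / (q : ℝ) * f q k1 k2 g + C * (D : ℝ) ^ 4) :=
    Finset.sum_le_sum fun k1 hk1 => Finset.sum_le_sum fun k2 hk2 => Finset.sum_le_sum fun g hg =>
      hterm k1 hk1 k2 hk2 g hg
  refine hsum.trans ?_
  have e1 : ∑ k1 ∈ A, ∑ k2 ∈ A, ∑ g ∈ Icc 1 (w ^ 2),
        (C * X * L ^ 16 * ∑ q ∈ Pz (w ^ 20) z, 1 / (q : ℝ) * f q k1 k2 g + C * (D : ℝ) ^ 4) =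
      C * X * L ^ 16 * ∑ q ∈ Pz (w ^ 20) z, 1 / (q : ℝ) * ∑ k1 ∈ A, ∑ k2 ∈ A, ∑ g ∈ Icc 1 (w ^ 2),
        f q k1 k2 g + (A.card : ℝ) * ((A.card : ℝ) * ((w : ℝ) ^ 2 * (C * (D : ℝ) ^ 4))) := by
    rw [← swap]
    simp only [Finset.sum_add_distrib, Finset.sum_const, nsmul_eq_mul, Nat.card_Icc,
      Nat.add_sub_cancel, ← Finset.mul_sum]
    push_cast
    ring
  rw [e1]
  set T : ℝ := 16 * ((K : ℝ) + 1) / (w : ℝ) ^ 6 with hT
  have hT0 : 0 ≤ T := by positivity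
  have hK1' : (1 : ℝ) ≤ K := by exact_mod_cast hK1
  have hT2 : T ≤ 32 * K / (w : ℝ) ^ 6 := by
    rw [hT]
    apply div_le_div_of_nonneg_right _ hw6.le
    linarith
  have e2 : ∑ q ∈ Pz (w ^ 20) z, 1 / (q : ℝ) * ∑ k1 ∈ A, ∑ k2 ∈ A, ∑ g ∈ Icc 1 (w ^ 2), f q k1 k2 g ≤
      ∑ q ∈ Pz (w ^ 20) z, (3 * (K : ℝ) ^ 2 * (w : ℝ) ^ 2 * (1 / (q : ℝ) * (1 / q)) +
        3 * K * (w : ℝ) ^ 2 * T * (1 / (q : ℝ))) := by
    apply Finset.sum_le_sum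
    intro q hq
    simp only [Pz, Finset.mem_filter, Finset.mem_Ioc] at hq
    have h := one_q hRGA hRGB hw hwK hq.2 hq.1.1 hj hjw hA1 hA2 hAc
    have h2 := mul_le_mul_of_nonneg_left h (one_div_nonneg' q)
    refine h2.trans (le_of_eq ?_)
    rw [← hT]
    ring
  have e3 : ∑ q ∈ Pz (w ^ 20) z, (3 * (K : ℝ) ^ 2 * (w : ℝ) ^ 2 * (1 / (q : ℝ) * (1 / q)) +
        3 * K * (w : ℝ) ^ 2 * T * (1 / (q : ℝ))) ≤
      3 * (K : ℝ) ^ 2 * (w : ℝ) ^ 2 * (1 / (w : ℝ) ^ 6) + 3 * K * (w : ℝ) ^ 2 * T * (1 + L) := by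
    rw [Finset.sum_add_distrib, ← Finset.mul_sum, ← Finset.mul_sum]
    have h1 := sum_sq_le (w ^ 20) z (by omega) hwz
    have h2 := sum_one_le (w ^ 20) z
    have h3 : 1 / ((w ^ 20 : ℕ) : ℝ) ≤ 1 / (w : ℝ) ^ 6 := by
      push_cast
      apply one_div_le_one_div_of_le hw6
      exact pow_le_pow_right₀ hw1 (by norm_num)
    apply add_le_add
    · apply mul_le_mul_of_nonneg_left (h1.trans h3)
      positivity
    · apply mul_le_mul_of_nonneg_left h2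
      positivity
  have e4 : 3 * (K : ℝ) * (w : ℝ) ^ 2 * T * (1 + L) ≤
      96 * ((K : ℝ) ^ 2 * (w : ℝ) ^ 2 / (w : ℝ) ^ 6) * (1 + L) := by
    have h1 : 3 * (K : ℝ) * (w : ℝ) ^ 2 * T ≤ 3 * (K : ℝ) * (w : ℝ) ^ 2 * (32 * K / (w : ℝ) ^ 6) :=
      mul_le_mul_of_nonneg_left hT2 (by positivity)
    have h2 : 3 * (K : ℝ) * (w : ℝ) ^ 2 * (32 * K / (w : ℝ) ^ 6) =
        96 * ((K : ℝ) ^ 2 * (w : ℝ) ^ 2 / (w : ℝ) ^ 6) := by ring
    rw [h2] at h1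
    exact mul_le_mul_of_nonneg_right h1 (by linarith)
  set R : ℝ := (K : ℝ) ^ 2 * (w : ℝ) ^ 2 / (w : ℝ) ^ 6 with hR
  have hR0 : 0 ≤ R := by positivity
  have e5 : 3 * (K : ℝ) ^ 2 * (w : ℝ) ^ 2 * (1 / (w : ℝ) ^ 6) = 3 * R := by
    rw [hR]; ring
  have e6 : ∑ q ∈ Pz (w ^ 20) z, 1 / (q : ℝ) * ∑ k1 ∈ A, ∑ k2 ∈ A, ∑ g ∈ Icc 1 (w ^ 2),
      f q k1 k2 g ≤ R * (99 + 96 * L) := by
    have := e2.trans e3
    rw [e5] at this
    linarith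
  have e7 : (A.card : ℝ) * ((A.card : ℝ) * ((w : ℝ) ^ 2 * (C * (D : ℝ) ^ 4))) ≤ C * X * R := by
    have hAc' : (A.card : ℝ) ≤ K := by exact_mod_cast hAc
    have hD : (D : ℝ) ^ 4 ≤ X / (w : ℝ) ^ 6 := by
      rw [le_div_iff₀ hw6]
      exact_mod_cast hDX
    have h1 : (A.card : ℝ) * (A.card : ℝ) ≤ K * K := mul_le_mul hAc' hAc' (by positivity) (by positivity)
    calc (A.card : ℝ) * ((A.card : ℝ) * ((w : ℝ) ^ 2 * (C * (D : ℝ) ^ 4)))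
        = ((A.card : ℝ) * (A.card : ℝ)) * ((w : ℝ) ^ 2 * (C * (D : ℝ) ^ 4)) := by ring
      _ ≤ (K * K) * ((w : ℝ) ^ 2 * (C * (D : ℝ) ^ 4)) := mul_le_mul_of_nonneg_right h1 (by positivity)
      _ = ((K : ℝ) * K * (w : ℝ) ^ 2 * C) * (D : ℝ) ^ 4 := by ring
      _ ≤ ((K : ℝ) * K * (w : ℝ) ^ 2 * C) * (X / (w : ℝ) ^ 6) :=
          mul_le_mul_of_nonneg_left hD (by positivity)
      _ = C * X * R := by rw [hR]; ring
  have hX0 : (0 : ℝ) ≤ X := by positivity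
  have e8 : C * X * L ^ 16 * (∑ q ∈ Pz (w ^ 20) z, 1 / (q : ℝ) * ∑ k1 ∈ A, ∑ k2 ∈ A,
      ∑ g ∈ Icc 1 (w ^ 2), f q k1 k2 g) ≤ C * X * L ^ 16 * (R * (99 + 96 * L)) :=
    mul_le_mul_of_nonneg_left e6 (by positivity)
  have e9 : L ^ 16 * (99 + 96 * L) + 1 ≤ 196 * L ^ 17 := by
    have h16 : 1 ≤ L ^ 16 := one_le_pow₀ hL1
    have h17 : L ^ 17 = L ^ 16 * L := pow_succ L 16
    rw [h17]
    nlinarith [mul_le_mul h16 hL1 (by norm_num) (by positivity)]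
  have e10 : C * X * L ^ 16 * (R * (99 + 96 * L)) + C * X * R =
      C * X * R * (L ^ 16 * (99 + 96 * L) + 1) := by ring
  have e11 : C * X * R * (L ^ 16 * (99 + 96 * L) + 1) ≤ C * X * R * (196 * L ^ 17) :=
    mul_le_mul_of_nonneg_left e9 (by positivity)
  have e12 : 196 * C * (K : ℝ) ^ 2 * X * (w : ℝ) ^ 2 * L ^ 17 / (w : ℝ) ^ 6 =
      C * X * R * (196 * L ^ 17) := by
    rw [hR]; ring
  rw [e12]
  calc _ ≤ C * X * L ^ 16 * (R * (99 + 96 * L)) + C * X * R := add_le_add e8 e7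
    _ = _ := e10
    _ ≤ _ := e11

end Pool.Agent.Helper24.AA
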